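import Pool.Agent.Helper63.TH.Goals

/-!
# Packet PT-TH-MON: monotonicity in the dimension
-/

set_option autoImplicit false

namespace Pool.Agent.Helper19.TH

open MeasureTheory Set Filter Topology
open Pool.Agent.Helper53.PT
open Pool.Agent.Helper63.TH

theorem step (hVP : GVP) {θ : ℝ} (h0 : 1 / 4 ≤ θ) (h1 : θ < 1 / 2) (hGT : GT θ) {m : ℕ}
    (hm : 3 ≤ m) (hle : V θ m ≤ P θ) : V θ (m + 1) < V θ m := by
  have h0' : 0 < θ := by linarith
  have hmR : (3 : ℝ) ≤ m := by exact_mod_cast hm
  have hmpos : (0 : ℝ) < m := by linarith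
  set s : Fin (m + 1) → ℝ := Fin.snoc (fun _ : Fin m => 1 / (m : ℝ)) 0 with hs
  have hslast : s (Fin.last m) = 0 := by simp [hs]
  have hscast : ∀ i : Fin m, s (Fin.castSucc i) = 1 / (m : ℝ) := by intro i; simp [hs]
  have hsval : ∀ i, s i = 1 / (m : ℝ) ∨ s i = 0 := by
    intro i
    refine Fin.lastCases ?_ (fun j => ?_) i
    · exact Or.inr hslast
    · exact Or.inl (hscast j)
  have hSx : Sx s := by
    refine ⟨fun i => ?_, ?_⟩
    · rcases hsval i with h | h <;> rw [h]
      positivity
    · rw [Fin.sum_univ_castSucc, hslast]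
      simp only [hscast]
      rw [Finset.sum_const, Finset.card_univ, Fintype.card_fin, nsmul_eq_mul, add_zero]
      field_simp
  have hGs : G θ s = V θ m := by
    unfold V G
    congr 1
    funext ξ
    have : PP θ s ξ = PP θ (fun _ : Fin m => 1 / (m : ℝ)) ξ := by
      unfold PP
      rw [Fin.prod_univ_castSucc, hslast]
      simp only [hscast]
      rw [zero_mul, f0_zero h0' h1, mul_one]
    rw [this]
  have hnot : ¬ Good s := by
    rintro (h | ⟨i, j, hij, hi, hj, _⟩)
    · have h2 := h (Fin.last m)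
      rw [hslast] at h2
      have h3 : (0 : ℝ) < 1 / ((m + 1 : ℕ) : ℝ) := by positivity
      linarith
    · rcases hsval i with h | h
      · rw [h, div_eq_div_iff hmpos.ne' (by norm_num)] at hi
        linarith
      · rw [h] at hi
        norm_num at hi
  obtain ⟨t, ht, hmin⟩ := (aDER h0 h1 (m + 1)).1 (by omega)
  have hgood := hGT (m + 1) (by omega) t ⟨ht, hmin⟩
  have hlt : G θ t < V θ m := by
    have h2 := hmin s hSx
    rw [hGs] at h2
    refine lt_of_le_of_ne h2 fun h3 => hnot (hGT (m + 1) (by omega) s ⟨hSx, fun r hr => ?_⟩)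
    rw [hGs, ← h3]
    exact hmin r hr
  rcases hgood with h | ⟨i, j, hij, hi, hj, hl⟩
  · have h2 : t = fun _ : Fin (m + 1) => 1 / (((m + 1 : ℕ)) : ℝ) := funext h
    rw [h2] at hlt
    exact hlt
  · exfalso
    have h2 : G θ t = V θ 2 := by
      unfold V G
      congr 1
      funext ξ
      have : PP θ t ξ = PP θ (fun _ : Fin 2 => 1 / ((2 : ℕ) : ℝ)) ξ := by
        unfold PP
        rw [Fin.prod_univ_two, Fintype.prod_eq_mul i j hij]
        · rw [hi, hj]; norm_num
        · intro l hlij
          rw [hl l hlij.1 hlij.2, zero_mul, f0_zero h0' h1]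
      rw [this]
    rw [h2, hVP θ h0' h1] at hlt
    linarith

theorem gMON : GMON := by
  intro hVP θ h0 h1 hGT m n hm hmn
  have key : V θ m ≤ P θ → V θ n ≤ V θ m ∧ (m < n → V θ n < V θ m) := by
    intro hle
    induction n, hmn using Nat.le_induction with
    | base => exact ⟨le_rfl, fun h => absurd h (lt_irrefl _)⟩
    | succ k hk ih =>
      have h2 := step hVP h0 h1 hGT (m := k) (by omega) (ih.1.trans hle)
      have h3 : V θ (k + 1) < V θ m := lt_of_lt_of_le h2 ih.1
      exact ⟨h3.le, fun _ => h3⟩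
  exact ⟨fun h => lt_of_le_of_lt (key h.le).1 h, fun h h2 => (key h2).2 h⟩

end Pool.Agent.Helper19.TH
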